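import Pool.Agent.R260.SqC

set_option autoImplicit false

open Filter Set Topology

namespace Pool.Agent.Results.MP_38d52f_an.SquareSumCM

/-- The two-parameter Mittag-Leffler function at a real argument. -/
noncomputable def E (a b z : ℝ) : ℝ := ∑' k : ℕ, z ^ k / Real.Gamma (a * k + b)

/-- The function `f_alpha` of the problem. -/
noncomputable def f (α t : ℝ) : ℝ := |E (2 * α) 1 (-t)| ^ 2 + t * |E (2 * α) (1 + α) (-t)| ^ 2

/-- Complete monotonicity on `(0, infinity)`. -/
def IsCM (g : ℝ → ℝ) : Prop :=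
  ContDiffOn ℝ (⊤ : ℕ∞) g (Ioi 0) ∧ ∀ n : ℕ, ∀ t : ℝ, 0 < t → 0 ≤ (-1) ^ n * iteratedDeriv n g t

open Pool.Agent.R260.Sq in
/-- MP_38d52f_an, Q1 and Q2: for every `α` in `(0, 1/2]` the function `f_α` is completely monotone
on `(0, infinity)`, strictly positive and log-convex there. -/
theorem result (α : ℝ) (h0 : 0 < α) (h1 : α ≤ 1 / 2) :
    IsCM (f α) ∧ (∀ t : ℝ, 0 < t → 0 < f α t) ∧
      ConvexOn ℝ (Ioi 0) (fun t => Real.log (f α t)) := by
  have hff : f α = Pool.Agent.R260.Sq.f α := rfl
  rw [hff]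
  have hF : Pool.Agent.R260.Sq.f α = F (fun k => (-1)^k * d k α) := funext (f_eq α h0)
  have hsm : ContDiff ℝ (⊤ : ℕ∞) (Pool.Agent.R260.Sq.f α) := by
    rw [hF]; exact F_contDiff (ent_d α h0)
  -- complete monotonicity
  have hcm : ∀ n : ℕ, ∀ t : ℝ, 0 < t → 0 ≤ (-1) ^ n * iteratedDeriv n (Pool.Agent.R260.Sq.f α) t := by
    intro n t _
    rw [← f_deriv α h0]
    apply pos_all α h0 h1 _ (tst_growth n t)
    intro w hw
    rw [(tst_phi n t w).tsum_eq]
    positivity
  -- positivity
  have hposf : ∀ t : ℝ, 0 < t → 0 < Pool.Agent.R260.Sq.f α t := by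
    intro t _
    set w0 : ℝ := c 1 α with hw0
    set T : ℕ → ℝ := fun j => if j = 0 then (1 + t * w0) else if j = 1 then -t else 0 with hT
    have hTg : Growth T := by
      refine ⟨|1 + t * w0| + |t|, 1, by positivity, by norm_num, fun k => ?_⟩
      rcases k with _ | _ | k
      · simp [hT]
      · simp [hT]
      · simp [hT]; positivity
    have hg : Growth (fun k => tst 0 t k + (-Real.exp (-(t * w0))) * T k) :=
      (tst_growth 0 t).add (hTg.smul _)
    have hTs : ∀ y : ℕ → ℝ, HasSum (fun k => T k * y k) ((1 + t * w0) * y 0 + (-t) * y 1) := by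
      intro y
      have : ((1 + t * w0) * y 0 + (-t) * y 1) = ∑ k ∈ ({0, 1} : Finset ℕ), T k * y k := by
        rw [Finset.sum_pair (by norm_num)]; simp [hT]
      rw [this]
      apply hasSum_sum_of_ne_finset_zero
      intro b hb
      simp at hb
      simp [hT, hb.1, hb.2]
    have hpos := pos_all α h0 h1 _ hg (by
      intro w hw
      have e1 := tst_phi 0 t w
      have e2 := (hTs (fun k => w ^ k)).mul_left (-Real.exp (-(t * w0)))
      have e3 := e1.add e2
      have e4 : (fun k => (tst 0 t k + (-Real.exp (-(t * w0))) * T k) * w ^ k)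
          = fun k => tst 0 t k * w ^ k + -Real.exp (-(t * w0)) * (T k * w ^ k) := by
        ext k; ring
      rw [e4, e3.tsum_eq]
      have h5 := Real.add_one_le_exp (-(t * w) + t * w0)
      have h6 : Real.exp (-(t*w)) = Real.exp (-(t * w0)) * Real.exp (-(t * w) + t * w0) := by
        rw [← Real.exp_add]; congr 1; ring
      have h7 : Real.exp (-(t * w0)) * (-(t * w) + t * w0 + 1) ≤ Real.exp (-(t*w)) := by
        rw [h6]; gcongr
      simp only [pow_zero, pow_one, one_mul, mul_one]
      linarith)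
    have s1 := growth_summable (tst_growth 0 t) α h0
    have e2 := (hTs (fun k => c k α)).mul_left (-Real.exp (-(t * w0)))
    have e3 := s1.hasSum.add e2
    have e4 : (fun k => (tst 0 t k + (-Real.exp (-(t * w0))) * T k) * c k α)
        = fun k => tst 0 t k * c k α + -Real.exp (-(t * w0)) * (T k * c k α) := by
      ext k; ring
    rw [e4, e3.tsum_eq, f_deriv α h0, pow_zero, one_mul, iteratedDeriv_zero] at hpos
    have hc0 : c 0 α = 1 := by
      unfold c d; simp
    rw [hc0, ← hw0] at hpos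
    have := Real.exp_pos (-(t * w0))
    nlinarith
  refine ⟨⟨hsm.contDiffOn, hcm⟩, hposf, ?_⟩
  -- log-convexity
  set e := (fun k : ℕ => (-1:ℝ)^k * d k α) with he
  have hent : Ent e := ent_d α h0
  have hd1 : ∀ t, HasDerivAt (Pool.Agent.R260.Sq.f α) (F (sh e) t) t := by
    intro t; rw [hF]; exact F_hasDerivAt hent t
  have hd2 : ∀ t, HasDerivAt (F (sh e)) (F (sh (sh e)) t) t := fun t => F_hasDerivAt hent.sh t
  have hi1 : ∀ t, iteratedDeriv 1 (Pool.Agent.R260.Sq.f α) t = F (sh e) t := by
    intro t; rw [hF, F_iteratedDeriv hent]; rfl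
  have hi2 : ∀ t, iteratedDeriv 2 (Pool.Agent.R260.Sq.f α) t = F (sh (sh e)) t := by
    intro t; rw [hF, F_iteratedDeriv hent]; rfl
  have hquad : ∀ t : ℝ, 0 < t → ∀ x : ℝ, 0 ≤ Pool.Agent.R260.Sq.f α t * (x * x)
      + (2 * F (sh e) t) * x + F (sh (sh e)) t := by
    intro t _ x
    have hg : Growth (fun k => tst 2 t k + ((-2 * x) * tst 1 t k + x^2 * tst 0 t k)) :=
      (tst_growth 2 t).add (((tst_growth 1 t).smul _).add ((tst_growth 0 t).smul _))
    have hpos := pos_all α h0 h1 _ hg (by
      intro w hw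
      have e3 := (tst_phi 2 t w).add (((tst_phi 1 t w).mul_left (-2 * x)).add
        ((tst_phi 0 t w).mul_left (x^2)))
      have e4 : (fun k => (tst 2 t k + ((-2 * x) * tst 1 t k + x^2 * tst 0 t k)) * w ^ k)
          = fun k => tst 2 t k * w ^ k + ((-2 * x) * (tst 1 t k * w ^ k)
            + x^2 * (tst 0 t k * w ^ k)) := by
        ext k; ring
      rw [e4, e3.tsum_eq]
      have : w ^ 2 * Real.exp (-(t * w)) + (-2 * x * (w ^ 1 * Real.exp (-(t * w)))
          + x ^ 2 * (w ^ 0 * Real.exp (-(t * w)))) = (w - x)^2 * Real.exp (-(t*w)) := by ring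
      rw [this]
      positivity)
    have s0 := growth_summable (tst_growth 0 t) α h0
    have s1 := growth_summable (tst_growth 1 t) α h0
    have s2 := growth_summable (tst_growth 2 t) α h0
    have e3 := s2.hasSum.add ((s1.hasSum.mul_left (-2 * x)).add (s0.hasSum.mul_left (x^2)))
    have e4 : (fun k => (tst 2 t k + ((-2 * x) * tst 1 t k + x^2 * tst 0 t k)) * c k α)
        = fun k => tst 2 t k * c k α + ((-2 * x) * (tst 1 t k * c k α)
          + x^2 * (tst 0 t k * c k α)) := by
      ext k; ring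
    rw [e4, e3.tsum_eq, f_deriv α h0, f_deriv α h0, f_deriv α h0, hi2, hi1, iteratedDeriv_zero] at hpos
    nlinarith
  have hdisc : ∀ t : ℝ, 0 < t → F (sh e) t ^ 2 ≤ Pool.Agent.R260.Sq.f α t * F (sh (sh e)) t := by
    intro t ht
    have := discrim_le_zero (hquad t ht)
    unfold discrim at this
    nlinarith
  apply convexOn_of_hasDerivWithinAt2_nonneg (convex_Ioi 0)
    (f' := fun t => F (sh e) t / Pool.Agent.R260.Sq.f α t)
    (f'' := fun t => (F (sh (sh e)) t * Pool.Agent.R260.Sq.f α t - F (sh e) t * F (sh e) t)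
      / Pool.Agent.R260.Sq.f α t ^ 2)
  · intro t ht
    exact ((hd1 t).continuousAt.log (hposf t ht).ne').continuousWithinAt
  · intro t ht
    rw [interior_Ioi] at ht
    exact ((hd1 t).log (hposf t ht).ne').hasDerivWithinAt
  · intro t ht
    rw [interior_Ioi] at ht
    exact ((hd2 t).div (hd1 t) (hposf t ht).ne').hasDerivWithinAt
  · intro t ht
    rw [interior_Ioi] at ht
    have h3 := hdisc t ht
    have h4 := hposf t ht
    apply div_nonneg _ (by positivity)
    nlinarith

end Pool.Agent.Results.MP_38d52f_an.SquareSumCM
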